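import Mathlib
import Pool.Agent.Helper82.TP.Final

/-!
MP_ff1a2a_nt, question Q1.

For every modulus `k` there is an `N₀` such that for all `N ≥ N₀` and all Dirichlet characters `χ`
modulo `k` the partial sum `S_N(s, χ)` has a zero with real part greater than `1`. So no Dirichlet
character has property (T), and the implication asked for in Q1 holds (vacuously) for all of them.

Idea of the proof. By Kronecker's theorem and the maximum principle it is enough to find a
completely multiplicative unimodular `f` such that `∑ f(n) n ^ (-σ)`, over the `n ≤ N` prime to `k`,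
vanishes at some real `σ > 1`. Take `f(n) = n ^ (-i t)` with `t = 2 π / log N` on the integers
without prime factor above the square root of `N`. Then the complete sum at `σ = 1` is bounded,
and the values at the large primes are free. The sum is `A + ∑ f(p) ρ(p)` over the large primes,
so the polygon inequality reduces the claim to `|A| < ∑ |ρ(p)|`; and this holds for large `N`, since
`A = O(1) - ∑ p ^ (-i t) ρ(p)` where the arguments of the terms `p ^ (-i t) ρ(p)` spread over the
interval from `0` to `π / 2` while `∑ |ρ(p)|` has order `log N`.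
-/

set_option autoImplicit false

namespace Pool.Agent.Results.MP_ff1a2a_nt.NoPropertyT

/-- `S_N(s, χ)`, the sum of `χ(n) n ^ (-s)` over `1 ≤ n ≤ N` -/
noncomputable def SN {k : ℕ} (χ : DirichletCharacter ℂ k) (N : ℕ) (s : ℂ) : ℂ :=
  ∑ n ∈ Finset.Icc 1 N, χ n * (n : ℂ) ^ (-s)

/-- property (T): no `S_N(s, χ)`, `N ≥ 1`, has a zero with real part greater than `1` -/
def PropertyT {k : ℕ} (χ : DirichletCharacter ℂ k) : Prop :=
  ∀ N : ℕ, 1 ≤ N → ∀ s : ℂ, 1 < s.re → SN χ N s ≠ 0

/-- For every `k ≥ 1` there is `N₀` such that for all `N ≥ N₀` and all `χ` modulo `k` the sum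
`S_N(s, χ)` vanishes at some `s` with real part greater than `1`; hence no `χ` has property (T),
and for all `χ` with property (T) the function `L(s, χ)` has no zero with real part
greater than `1 / 2`. -/
theorem result :
    (∀ k : ℕ, 1 ≤ k → ∃ N₀ : ℕ, ∀ N : ℕ, N₀ ≤ N → ∀ χ : DirichletCharacter ℂ k,
      ∃ s : ℂ, 1 < s.re ∧ SN χ N s = 0) ∧
    (∀ (k : ℕ) [NeZero k] (χ : DirichletCharacter ℂ k), ¬ PropertyT χ) ∧
    (∀ (k : ℕ) [NeZero k] (χ : DirichletCharacter ℂ k), PropertyT χ →
      ∀ s : ℂ, 1 / 2 < s.re → DirichletCharacter.LFunction χ s ≠ 0) := by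
  have h1 : ∀ k : ℕ, 1 ≤ k → ∃ N₀ : ℕ, ∀ N : ℕ, N₀ ≤ N → ∀ χ : DirichletCharacter ℂ k,
      ∃ s : ℂ, 1 < s.re ∧ SN χ N s = 0 := by
    intro k hk
    obtain ⟨N₀, hN₀⟩ := Filter.eventually_atTop.1 (Pool.Agent.Helper82.TP.eventually_zero hk)
    exact ⟨N₀, fun N hN χ => hN₀ N hN χ⟩
  have h2 : ∀ (k : ℕ) [NeZero k] (χ : DirichletCharacter ℂ k), ¬ PropertyT χ := by
    intro k hk χ hT
    obtain ⟨N₀, hN₀⟩ := h1 k (Nat.one_le_iff_ne_zero.2 hk.out)
    obtain ⟨s, hs, h0⟩ := hN₀ (N₀ + 1) (Nat.le_succ _) χ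
    exact hT (N₀ + 1) (by omega) s hs h0
  exact ⟨h1, h2, fun k _ χ hT => absurd hT (h2 k χ)⟩

end Pool.Agent.Results.MP_ff1a2a_nt.NoPropertyT
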